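import Pool.Agent.MP_99d303_co.PathFree

/-!
# MP_99d303_co: the Ramsey number `r₃(P₃, K_t)` is `o(t²)`
-/

set_option autoImplicit false

namespace Pool.Agent.Results.MP_99d303_co.RamseyNumber

open Filter

/-- `H` contains a copy of the tight path `P₃` with three edges: distinct vertices `v₁, ..., v₅` such that `v₁v₂v₃`, `v₂v₃v₄`
and `v₃v₄v₅` are edges. -/
def ContainsP3 {N : ℕ} (H : Finset (Finset (Fin N))) : Prop :=
  ∃ v : Fin 5 → Fin N, Function.Injective v ∧ ({v 0, v 1, v 2} : Finset (Fin N)) ∈ H ∧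
    ({v 1, v 2, v 3} : Finset (Fin N)) ∈ H ∧ ({v 2, v 3, v 4} : Finset (Fin N)) ∈ H

/-- Every 3-uniform hypergraph on `N` vertices contains a copy of `P₃` or has an independent set of `t` vertices. -/
def Forces (N t : ℕ) : Prop :=
  ∀ H : Finset (Finset (Fin N)), (∀ e ∈ H, e.card = 3) →
    ContainsP3 H ∨ ∃ S : Finset (Fin N), S.card = t ∧ ∀ e ∈ H, ¬ e ⊆ S

theorem forces_of (ε : ℝ) (hε : 0 < ε) :
    ∃ T : ℕ, ∀ t : ℕ, T ≤ t → ∀ n : ℕ, ε * (t : ℝ) ^ 2 ≤ (n : ℝ) → Forces n t := by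
  obtain ⟨T, hT⟩ := Pool.Agent.MP_99d303_co.path_or_ind ε hε
  refine ⟨T, fun t ht n hn H hH => ?_⟩
  rcases hT t ht n hn H with ⟨a, b, c, d, e, h, h1, h2, h3⟩ | ⟨S, hS, h⟩
  · left
    refine ⟨![a, b, c, d, e], ?_, h1, h2, h3⟩
    rw [← List.nodup_ofFn]
    simpa [List.ofFn_succ] using h
  · right
    refine ⟨S, hS, fun e he hsub => ?_⟩
    obtain ⟨x, y, z, hxy, hxz, hyz, rfl⟩ := Finset.card_eq_three.1 (hH e he)
    exact h x y z (hsub (by simp)) (hsub (by simp)) (hsub (by simp)) hxy hxz hyz he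

theorem forces_mono {N s t : ℕ} (hst : s ≤ t) (h : Forces N t) : Forces N s := by
  intro H hH
  rcases h H hH with h1 | ⟨S, hS, h1⟩
  · exact Or.inl h1
  · right
    obtain ⟨S', hS', hc⟩ := Finset.exists_subset_card_eq (s := S) (n := s) (by omega)
    exact ⟨S', hc, fun e he hsub => h1 e he (hsub.trans hS')⟩

/-- `r₃(P₃, K_t)`, the least `N` such that every 3-uniform hypergraph on `N` vertices contains a copy of the tight path `P₃` or
has an independent set of `t` vertices, exists for all `t`, and `r₃(P₃, K_t) / t² → 0` as `t → ∞`. -/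
theorem result : ∃ r : ℕ → ℕ, (∀ t, IsLeast {N : ℕ | Forces N t} (r t)) ∧
    Tendsto (fun t : ℕ => (r t : ℝ) / (t : ℝ) ^ 2) atTop (nhds 0) := by
  classical
  have hne : ∀ t, ∃ N, Forces N t := by
    intro t
    obtain ⟨T, hT⟩ := forces_of 1 one_pos
    refine ⟨(max t T) ^ 2, forces_mono (le_max_left t T) (hT _ (le_max_right t T) _ ?_)⟩
    push_cast
    rw [one_mul]
  refine ⟨fun t => Nat.find (hne t), fun t => ⟨Nat.find_spec (hne t), fun N hN => Nat.find_min' (hne t) hN⟩, ?_⟩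
  rw [Metric.tendsto_atTop]
  intro ε hε
  obtain ⟨T, hT⟩ := forces_of (ε / 4) (by positivity)
  obtain ⟨A, hA⟩ := exists_nat_gt (4 / ε)
  refine ⟨max T (max A 1), fun t ht => ?_⟩
  have ht1 : T ≤ t := (le_max_left _ _).trans ht
  have ht2 : A ≤ t := (le_max_left _ _).trans ((le_max_right _ _).trans ht)
  have ht3 : 1 ≤ t := (le_max_right _ _).trans ((le_max_right _ _).trans ht)
  have ht4 : (1 : ℝ) ≤ t := by exact_mod_cast ht3
  have ht5 : 4 / ε < t := hA.trans_le (by exact_mod_cast ht2)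
  have hsq : 0 < (t : ℝ) ^ 2 := by positivity
  have h1 : Forces ⌈ε / 4 * (t : ℝ) ^ 2⌉₊ t := hT t ht1 _ (Nat.le_ceil _)
  have h2 : Nat.find (hne t) ≤ ⌈ε / 4 * (t : ℝ) ^ 2⌉₊ := Nat.find_min' (hne t) h1
  have h3 : (⌈ε / 4 * (t : ℝ) ^ 2⌉₊ : ℝ) < ε / 4 * (t : ℝ) ^ 2 + 1 := Nat.ceil_lt_add_one (by positivity)
  have h4 : ((Nat.find (hne t) : ℕ) : ℝ) ≤ (⌈ε / 4 * (t : ℝ) ^ 2⌉₊ : ℝ) := by exact_mod_cast h2
  have h5 : 4 < ε * (t : ℝ) ^ 2 := by
    rw [div_lt_iff₀ hε] at ht5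
    nlinarith
  rw [Real.dist_eq, sub_zero, abs_of_nonneg (by positivity), div_lt_iff₀ hsq]
  linarith

end Pool.Agent.Results.MP_99d303_co.RamseyNumber
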